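import Pool.Agent.TH127.SW.Main

/-!
# Injectivity of Abel-Jacobi maps and nilpotence of single correspondences

`k` is a field (the field of rational numbers, for the problem), `𝒱` a class of smooth projective
geometrically irreducible varieties over `k` closed under products and containing a curve (for
example all of them), `C` the Chow groups with rational coefficients (in the form of their formal
properties, `IsChowProj`), `H` a Weil cohomology theory (`IsWeilProj`; singular cohomology, for the
problem) and `T` the Abel-Jacobi maps (in the form of their functoriality, `AbelJacobi.IsFunctorial`,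
and of the reducibility theorem of Poincare for the Jacobians of curves,
`AbelJacobi.HasCurveProjectors`). The Kunneth standard conjecture is assumed.

If the Abel-Jacobi maps are injective, then a correspondence from `X` to `Y` which acts as zero on
`H^(2m-1)(X)` acts as zero on `CH^m(X)_hom` (`ControlledByCohomology`). This consequence is
equivalent to the local nilpotence of single self-correspondences:

(N) for all `X` and `m`, each `γ ∈ CH^d(X × X)`, `d = dim X`, acting as zero on `H^(2m-1)(X)` acts
locally nilpotently on `CH^m(X)_hom`;

and it is enough to know this if only the middle cohomology is left: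

(M) for all `X` and `m` with `2 m ≠ d + 1`, each `γ ∈ CH^d(X × X)` acting as zero on `H^j(X)` for all
`j ≠ d = dim X` acts locally nilpotently on `CH^m(X)_hom`.

The Abel-Jacobi maps are all injective (Q1, up to torsion) if and only if (N) holds and their kernels
consist of algebraically trivial cycles; if and only if (M) holds and each cycle in the kernel of an
Abel-Jacobi map, in `CH^m(X)`, is the sum of an algebraically trivial cycle and of `γ_* b` with
`b ∈ CH^m(X)_hom` and `γ ∈ CH^d(X × X)` acting as zero on `H^(2m-1)(X)`.

Proof. By (M) for `X × X` and `Δ × γ`, homologically trivial self-correspondences `γ` are nilpotent,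
so Chow-Kunneth decompositions `π` exist. The projector `π_j` acts as zero on `CH^m(X)_hom` for
`j ≠ 2 m - 1`: if `j = dim X` this is (M), and exterior products with a curve or with a point of a
curve change `dim X` without changing `2 m - 1 - j`. Hence the exterior product of two homologically
trivial cycles `z`, `w` of codimensions `i`, `j` is zero, since it has weight `2 (i + j) - 2` for the
product decomposition. Now let `γ` act as zero on `H^(2m-1)(X)`. For `z ∈ CH^m(X)_hom` we have
`γ_* z = (γ ∘ π_(2m-1))_* z`, the correspondence `γ' = γ ∘ π_(2m-1)` is homologically trivial, so
`γ' × z = 0` and `γ_* z = 0`. If `z = Γ_* c` is algebraically trivial and in the kernel of the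
Abel-Jacobi map, `c` of degree zero on a curve `B`, then by Poincare reducibility `z = Γ'_* c` with
`Γ'` homologically trivial; so `z = 0`.
-/

open CategoryTheory AlgebraicGeometry

set_option autoImplicit false

universe u v w

namespace Pool.Agent.Results.MP_e28333_ag.SingleCorrespondences

open Pool.Agent.H914 Pool.Agent.W492.BB Pool.Agent.TH133 Pool.Agent.TH127.PD Pool.Agent.TH127.SW

/-- Assume the Kunneth standard conjecture, and that the class of varieties contains a curve. The
following are equivalent: correspondences acting as zero on `H^(2m-1)(X)` act as zero on
`CH^m(X)_hom`, for all `X` and `m`; self-correspondences of degree zero acting as zero on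
`H^(2m-1)(X)` act locally nilpotently on `CH^m(X)_hom`, for all `X` and `m`; if `2 m ≠ dim X + 1`,
then self-correspondences of degree zero acting as zero on `H^j(X)` for all `j ≠ dim X` act locally
nilpotently on `CH^m(X)_hom`. Moreover, the following are equivalent: all Abel-Jacobi maps are
injective; the second of these statements holds and the kernels of the Abel-Jacobi maps consist of
algebraically trivial cycles; the third of these statements holds and each cycle in the kernel of
the Abel-Jacobi map on `CH^m(X)_hom` is the sum of an algebraically trivial cycle and of `γ_* b` with
`b ∈ CH^m(X)_hom` and `γ` a self-correspondence of degree zero acting as zero on `H^(2m-1)(X)`. -/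
theorem result {k : Type u} [Field k] {𝒱 : VarClass k} (C : TheoryData.{u, v, 0} 𝒱 ℚ)
    [IsChowProj C] {K : Type w} [Field K] (H : WeilTheoryData.{u, v, w} C K) [IsWeilProj H]
    (hK : KunnethConjecture H) (hcurve : ∃ T : 𝒱.Obj, T.dim = 1)
    (T : AbelJacobi H) (hT : T.IsFunctorial) (hT' : T.HasCurveProjectors) :
    List.TFAE [ControlledByCohomology H, ∀ (X : 𝒱.Obj) (m : ℕ), NilpotentOffWeight H X m,
      ∀ (X : 𝒱.Obj) (m : ℕ), X.dim + 1 ≠ 2 * m → NilpotentMiddle H X m] ∧
    List.TFAE [AJInjective T,
      (∀ (X : 𝒱.Obj) (m : ℕ), NilpotentOffWeight H X m) ∧ KerInAlg T,
      (∀ (X : 𝒱.Obj) (m : ℕ), X.dim + 1 ≠ 2 * m → NilpotentMiddle H X m) ∧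
        KerInAlgAddImage T] :=
  ⟨controlled_tfae hK hcurve, injective_tfae hK hcurve hT hT'⟩

end Pool.Agent.Results.MP_e28333_ag.SingleCorrespondences
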